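import Pool.Agent.R632.BC.Cm

/-!
# Zero in the spectrum and splittings over commensurated subgroups

If the assembly map in the Baum–Connes conjecture is (rationally) injective for `Γ` then the
zero-in-the-spectrum conjecture, the form of the question for closed aspherical manifolds, holds for all
closed aspherical manifolds with fundamental group `Γ` (Gromov, Lott).
`B` is a class of groups with the inheritance properties of the Baum–Connes conjecture with
coefficients, and `S` satisfies the extension criterion for injectivity of the assembly maps with
coefficients (`Inherit B S`); `W B` contains the free groups.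

`W B` is the class of the groups `G` such that every countable group with a subgroup of finite index
which embeds in a finite power of `G` is in `B` (equivalently: finite wreath products over `G`). It is
closed under subgroups, overgroups of finite index, directed unions and arbitrary extensions
(`MP_ba76ae_gt.ElementaryExtensions`); `B` is closed under actions on trees (Oyono-Oyono, Tu), but this
is not known for `W B`.

`RealizesComm i` says that the embedding `i` of `Γ` in `P` realizes the abstract commensurator of `Γ`:
each isomorphism between subgroups of finite index of `Γ` is induced by the conjugation by an element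
of `P`, and the centralizers in `P` of the subgroups of finite index of `Γ` are trivial. By the rigidity
theorem of Mostow and Prasad every lattice `Γ` with trivial centre in `PSL₂(ℂ)` has such an embedding in
`P = PGL₂(ℂ) ⋊ ℤ/2`, which is in `W B` for `B` = Baum–Connes with coefficients (Guentner, Higson and
Weinberger). Nonarithmetic lattices in the isometry groups of the real and complex hyperbolic spaces have
such an embedding in a lattice `P` (Margulis), and lattices are in `W B` as a-T-menable groups.

(1) If `K` is embedded in a group `P` of `W B` in this way, then every amalgamated product of groups
`A` and `A'` over `K`, where `K` has finite index in `A` and in `A'`, is in `W B`.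
(2) If `M` is embedded in a group `P` of `W B` in this way, then every HNN extension of `M`
with associated subgroups of finite index is in `W B`.
(3) Let `Γ` be a commensurated subgroup of a group `G`, embedded in `P` in this way, `P` in `W B`, and let
`j : H → G` be a homomorphism. Let `H` be built from groups in `W B` by amalgamated products, HNN
extensions and directed unions, such that `j k` does not centralize a subgroup of finite index of
`Γ` if `k ≠ 1` is in an edge group (`Splits (W B) Γ H j`). Then `H` is in `W B`.
(4) So, if a group `N` as in (1), (2) or (3) (or any group in `W B`) is embedded as a normal subgroup in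
the countable group `G` and the quotient is in `B` (in `S`), then `G` is in `B` (in `S`).

Outline of the proof. The group `Γ` is commensurated in `G`, so the conjugation by `g` in `G` is an
isomorphism between subgroups of finite index of `Γ` and gives an element `f g` of `P`. This is a
homomorphism `f : G → P` which extends the embedding of `Γ`, and `f g = 1` only if `g` centralizes a
subgroup of finite index of `Γ`. So `f ∘ j` is injective on the edge groups, and its kernel is in `W B`
by `MP_ba76ae_gt.KernelsOfSplittings`.
-/

set_option autoImplicit false

namespace Pool.Agent.Results.MP_058ed1_gt.CommensuratedEdges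

open Pool.Agent.Y110.FJ (Amg)
open Pool.Agent.R632.CM (RealizesComm Commensurated Splits)
open Pool.Agent.R941.BC (Inherit W)

theorem result {B S : ∀ (G : Type) [Group G], Prop} (h : Inherit B S) (hF : W B (FreeGroup ℕ))
    (P : Type) [Group P] (hP : W B P) :
    (∀ (G : Type) [Group G] (A A' K : Subgroup G) (i : K →* P), Amg A A' K →
      K.relIndex A ≠ 0 → K.relIndex A' ≠ 0 → RealizesComm i → W B G) ∧
    (∀ (M : Type) [Group M] (A A' : Subgroup M) (φ : A ≃* A')
      (i : (HNNExtension.of : M →* HNNExtension M A A' φ).range →* P),
      A.FiniteIndex → A'.FiniteIndex → RealizesComm i → W B (HNNExtension M A A' φ)) ∧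
    (∀ (G : Type) [Group G] (Γ : Subgroup G) (i : Γ →* P), Commensurated Γ → RealizesComm i →
      ∀ (H : Type) [Group H] (j : H →* G), Splits (W B) Γ H j → W B H) ∧
    (∀ (N : Type) [Group N], W B N → ∀ (G : Type) [Group G] (f : N →* G), Function.Injective f →
      ∀ [f.range.Normal], Countable G →
        (B (G ⧸ f.range) → B G) ∧ (S (G ⧸ f.range) → S G)) := by
  have hC := Pool.Agent.R779.BC.W_extCl h hF
  exact ⟨fun _ _ A A' K i hamg hA hA' hi =>
      Pool.Agent.R632.BC.amalgam_fin hC Pool.Agent.R632.BC.W_finCl A A' K hamg hA hA' i hi hP,
    fun _ _ A A' φ i hA hA' hi => Pool.Agent.R632.BC.hnn_fin hC A A' φ hA hA' i hi hP,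
    fun _ _ _ i hΓ hi H _ j hj => Pool.Agent.R632.BC.splits_mem hC hΓ i hi hP H j hj,
    fun _ _ hN G _ f hf _ _ => Pool.Agent.R632.BC.W_norm h hN G f hf⟩

end Pool.Agent.Results.MP_058ed1_gt.CommensuratedEdges
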