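import Pool.Agent.R807.IP5

/-!
The zero-in-the-spectrum conjecture for closed aspherical manifolds (or finite aspherical complexes)
`M` which have a covering with a non-zero intersection pairing in some degree, or with zero in the
spectrum in some degree, with coefficients in a tempered unitary representation.

`X : FinRes G` is the cellular chain complex of the universal cover of a finite aspherical
complex `M` with fundamental group `G` (`Pool.Agent.H919R4.ZS.Defs`) and `X.homology (toRed G) j` is
`H_j(M; C*_r(G))`; for a closed manifold, these groups are not all zero if and only if zero is in the
spectrum of the Laplace operator on the forms of the universal cover, in some degree. Chains and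
cycles of the covering `M_C` with fundamental group `C`, with values in a unitary representation of
`C`, and tempered representations are defined in `Pool.Agent.TH98.ZT.Defs`, amenability (the Foelner
condition) in `Pool.Agent.H496R3.ZS.Stmt`; the coboundary `cobd` is defined in
`Pool.Agent.R807.IP2`, cocycles with finite support (`IsCocyc`), the pairing (`pairing`) and
`ZeroInSpec` in `Pool.Agent.R807.IP4`.
-/

set_option autoImplicit false

namespace Pool.Agent.Results.MP_058ed1_gt.TemperedCoverings

open Pool.Agent.H919R4.ZS (FinRes toRed)
open Pool.Agent.H496R3.ZS (IsAmenable)
open Pool.Agent.TH98.ZT (URep Tempered cyc)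
open Pool.Agent.R807.IP (pairing IsCocyc ZeroInSpec)

/-- Let `C` be any subgroup of `G` and let `π` be a unitary representation of `C` on an inner
product space `V`. Suppose that `C` is amenable, or that `π` is weakly contained in the regular
representation of `C`. Let `M_C` be the covering of `M` with fundamental group `C`. If the pairing
of `H_i(M_C; V)` with the cohomology with compact supports `H_c^i(M_C; V)` is not zero, or if zero is
in the spectrum of the Laplace operator on the `i`-chains of `M_C` with coefficients in `V`, then
`H_j(M; C*_r(G)) ≠ 0` for some `j ≤ i`. -/
theorem result (G : Type) [Group G] (X : FinRes G) (C : Subgroup G)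
    (V : Type) [NormedAddCommGroup V] [InnerProductSpace ℂ V] (π : URep C V)
    (hπ : IsAmenable C ∨ Tempered π) (i : ℕ)
    (h : (∃ z ∈ cyc X π i, ∃ y, IsCocyc X π i y ∧ pairing C z y ≠ 0) ∨ ZeroInSpec X π i) :
    ∃ j ≤ i, Nontrivial (X.homology (toRed G) j) :=
  Pool.Agent.R807.IP.final G X C V π hπ i h

end Pool.Agent.Results.MP_058ed1_gt.TemperedCoverings
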